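import Pool.Agent.Helper72.MK.Goals

/-!
# MK, packet MID: a continuous even choice of the midpoint of a chord
-/

set_option autoImplicit false

open MeasureTheory Set Filter Topology

noncomputable section

namespace Pool.Agent.Helper82.MK

open Pool.Agent.Helper72.MK Pool.Agent.Helper47.AQ

/-- a weighted average of points of `K - v`, translated by `v`, is in `K` -/
theorem avg_mem {K : Set (Fin 3 → ℝ)} (hK : IsBody K) (h : (Fin 3 → ℝ) → ℝ)
    (hc : Continuous h) (h0 : ∀ x, 0 ≤ h x) (v : Fin 3 → ℝ) (hv : ∀ x, h x ≠ 0 → x + v ∈ K)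
    (hI : 0 < ∫ x in K, h x) :
    (∫ x in K, h x)⁻¹ • (∫ x in K, h x • x) + v ∈ K := by
  by_contra hcon
  obtain ⟨f, u, hf1, hf2⟩ := geometric_hahn_banach_closed_point hK.conv hK.comp.isClosed hcon
  have i1 : IntegrableOn (fun x => h x • x) K :=
    (Continuous.continuousOn (by fun_prop)).integrableOn_compact hK.comp
  have i2 : IntegrableOn (fun x => h x * f (x + v)) K :=
    (Continuous.continuousOn (by fun_prop)).integrableOn_compact hK.comp
  have i3 : IntegrableOn (fun x => h x) K :=
    (Continuous.continuousOn hc).integrableOn_compact hK.comp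
  have i4 : IntegrableOn (fun x => h x * f x) K :=
    (Continuous.continuousOn (by fun_prop)).integrableOn_compact hK.comp
  have e1 : f (∫ x in K, h x • x) = ∫ x in K, h x * f x := by
    rw [← ContinuousLinearMap.integral_comp_comm f i1]
    refine integral_congr_ae (Filter.Eventually.of_forall fun x => ?_)
    simp
  have e2 : ∫ x in K, h x * f (x + v) = (∫ x in K, h x * f x) + (∫ x in K, h x) * f v := by
    rw [← integral_mul_const, ← integral_add i4 (i3.mul_const _)]
    refine integral_congr_ae (Filter.Eventually.of_forall fun x => ?_)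
    simp only [map_add]
    ring
  have e3 : ∫ x in K, h x * f (x + v) ≤ (∫ x in K, h x) * u := by
    rw [← integral_mul_const]
    refine integral_mono i2 (i3.mul_const _) fun x => ?_
    by_cases hx : h x = 0
    · simp [hx]
    · exact mul_le_mul_of_nonneg_left (hf1 _ (hv x hx)).le (h0 x)
  have e4 : f ((∫ x in K, h x)⁻¹ • (∫ x in K, h x • x) + v) =
      (∫ x in K, h x)⁻¹ * ∫ x in K, h x * f (x + v) := by
    rw [map_add, map_smul, e1, e2, smul_eq_mul, mul_add, ← mul_assoc, inv_mul_cancel₀ hI.ne',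
      one_mul]
  rw [e4] at hf2
  have e5 : (∫ x in K, h x)⁻¹ * ∫ x in K, h x * f (x + v) ≤ u := by
    calc (∫ x in K, h x)⁻¹ * ∫ x in K, h x * f (x + v)
        ≤ (∫ x in K, h x)⁻¹ * ((∫ x in K, h x) * u) :=
          mul_le_mul_of_nonneg_left e3 (inv_nonneg.mpr hI.le)
      _ = u := by rw [← mul_assoc, inv_mul_cancel₀ hI.ne', one_mul]
  linarith

/-- the distance to the complement -/
def ww (K : Set (Fin 3 → ℝ)) (x : Fin 3 → ℝ) : ℝ := Metric.infDist x Kᶜ

theorem ww_continuous (K : Set (Fin 3 → ℝ)) : Continuous (ww K) :=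
  Metric.continuous_infDist_pt _

theorem ww_nonneg (K : Set (Fin 3 → ℝ)) (x : Fin 3 → ℝ) : 0 ≤ ww K x := Metric.infDist_nonneg

theorem mem_of_ww {K : Set (Fin 3 → ℝ)} {x : Fin 3 → ℝ} (h : ww K x ≠ 0) : x ∈ K := by
  by_contra hx
  exact h (Metric.infDist_zero_of_mem hx)

theorem ww_pos {K : Set (Fin 3 → ℝ)} (hK : IsBody K) {x : Fin 3 → ℝ} (hx : x ∈ interior K) :
    0 < ww K x := by
  have hne : (Kᶜ).Nonempty := by
    rw [Set.nonempty_compl]
    intro h
    have := hK.comp
    rw [h] at this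
    exact noncompact_univ (Fin 3 → ℝ) this
  refine lt_of_le_of_ne (ww_nonneg K x) fun h => ?_
  have h1 : x ∈ closure Kᶜ := (Metric.mem_closure_iff_infDist_zero hne).mpr h.symm
  rw [closure_compl] at h1
  exact h1 hx

/-- the weight -/
def hh (K : Set (Fin 3 → ℝ)) (z x : Fin 3 → ℝ) : ℝ :=
  ww K (x + (1 / 2 : ℝ) • z) * ww K (x - (1 / 2 : ℝ) • z)

theorem hh_nonneg (K : Set (Fin 3 → ℝ)) (z x : Fin 3 → ℝ) : 0 ≤ hh K z x :=
  mul_nonneg (ww_nonneg _ _) (ww_nonneg _ _)

theorem hh_neg (K : Set (Fin 3 → ℝ)) (z x : Fin 3 → ℝ) : hh K (-z) x = hh K z x := by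
  unfold hh
  rw [smul_neg, sub_neg_eq_add, ← sub_eq_add_neg, mul_comm]

theorem hh_continuous (K : Set (Fin 3 → ℝ)) :
    Continuous (fun p : (Fin 3 → ℝ) × (Fin 3 → ℝ) => hh K p.1 p.2) := by
  unfold hh
  exact ((ww_continuous K).comp (by fun_prop)).mul ((ww_continuous K).comp (by fun_prop))

theorem hh_continuous_right (K : Set (Fin 3 → ℝ)) (z : Fin 3 → ℝ) : Continuous (hh K z) := by
  unfold hh
  exact ((ww_continuous K).comp (by fun_prop)).mul ((ww_continuous K).comp (by fun_prop))

/-- the total weight -/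
def II (K : Set (Fin 3 → ℝ)) (z : Fin 3 → ℝ) : ℝ := ∫ x in K, hh K z x

/-- the weighted sum -/
def JJ (K : Set (Fin 3 → ℝ)) (z : Fin 3 → ℝ) : Fin 3 → ℝ := ∫ x in K, hh K z x • x

theorem II_continuous {K : Set (Fin 3 → ℝ)} (hK : IsBody K) : Continuous (II K) := by
  have := continuous_parametric_integral_of_continuous (μ := volume) (f := hh K)
    (by simpa [Function.uncurry_def] using hh_continuous K) hK.comp
  exact this

theorem JJ_continuous {K : Set (Fin 3 → ℝ)} (hK : IsBody K) : Continuous (JJ K) := by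
  have hc : Continuous (Function.uncurry fun z x : Fin 3 → ℝ => hh K z x • x) := by
    rw [Function.uncurry_def]
    exact (hh_continuous K).smul continuous_snd
  have := continuous_parametric_integral_of_continuous (μ := volume)
    (f := fun z x : Fin 3 → ℝ => hh K z x • x) hc hK.comp
  exact this

theorem II_pos {K : Set (Fin 3 → ℝ)} (hK : IsBody K) {δ : ℝ} (h0 : 0 ≤ δ) (h1 : δ < 1)
    {p q : Fin 3 → ℝ} (hp : p ∈ K) (hq : q ∈ K) : 0 < II K (δ • (p - q)) := by
  obtain ⟨o, ho⟩ := hK.int
  set z := δ • (p - q) with hz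
  set x0 : Fin 3 → ℝ := (δ / 2) • (p + q) + (1 - δ) • o with hx0
  have hint : ∀ r ∈ K, δ • r + (1 - δ) • o ∈ interior K := by
    intro r hr
    have := hK.conv.combo_closure_interior_mem_interior (subset_closure hr) ho h0
      (sub_pos.mpr h1) (by ring)
    exact this
  have ep : x0 + (1 / 2 : ℝ) • z = δ • p + (1 - δ) • o := by
    rw [hx0, hz]; ext i; simp only [Pi.add_apply, Pi.smul_apply, Pi.sub_apply, smul_eq_mul]; ring
  have eq : x0 - (1 / 2 : ℝ) • z = δ • q + (1 - δ) • o := by
    rw [hx0, hz]; ext i; simp only [Pi.add_apply, Pi.smul_apply, Pi.sub_apply, smul_eq_mul]; ring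
  have hpos : 0 < hh K z x0 := by
    unfold hh
    rw [ep, eq]
    exact mul_pos (ww_pos hK (hint p hp)) (ww_pos hK (hint q hq))
  have hx0int : x0 ∈ interior K := by
    have e : x0 = (1 / 2 : ℝ) • (δ • p + (1 - δ) • o) + (1 / 2 : ℝ) • (δ • q + (1 - δ) • o) := by
      rw [hx0]; ext i; simp only [Pi.add_apply, Pi.smul_apply, smul_eq_mul]; ring
    rw [e]
    exact hK.conv.interior (hint p hp) (hint q hq) (by norm_num) (by norm_num) (by norm_num)
  have hcont := hh_continuous_right K z
  unfold II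
  rw [setIntegral_pos_iff_support_of_nonneg_ae]
  · have hopen : IsOpen (Function.support (hh K z) ∩ interior K) :=
      (hcont.isOpen_support).inter isOpen_interior
    have hpos2 : 0 < volume (Function.support (hh K z) ∩ interior K) :=
      hopen.measure_pos volume ⟨x0, ⟨hpos.ne', hx0int⟩⟩
    exact lt_of_lt_of_le hpos2 (measure_mono (inter_subset_inter_right _ interior_subset))
  · exact Filter.Eventually.of_forall fun x => hh_nonneg K z x
  · exact hcont.continuousOn.integrableOn_compact hK.comp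

theorem mid : MIDStmt := by
  intro K hK δ h0 h1
  refine ⟨fun z => (II K z)⁻¹ • JJ K z, ?_, ?_⟩
  · refine ContinuousOn.smul (ContinuousOn.inv₀ (II_continuous hK).continuousOn ?_)
      (JJ_continuous hK).continuousOn
    rintro z ⟨x, hx, y, hy, rfl⟩
    exact (II_pos hK h0 h1 hx hy).ne'
  · rintro z ⟨x, hx, y, hy, hz⟩
    have hI : 0 < II K z := by
      rw [hz]
      exact II_pos hK h0 h1 hx hy
    have hw : ∀ t, hh K z t ≠ 0 → t + (1 / 2 : ℝ) • z ∈ K ∧ t - (1 / 2 : ℝ) • z ∈ K := by
      intro t ht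
      unfold hh at ht
      exact ⟨mem_of_ww (left_ne_zero_of_mul ht), mem_of_ww (right_ne_zero_of_mul ht)⟩
    refine ⟨?_, ?_, ?_⟩
    · have e1 : II K (-z) = II K z := by
        unfold II
        simp only [hh_neg]
      have e2 : JJ K (-z) = JJ K z := by
        unfold JJ
        simp only [hh_neg]
      show (II K (-z))⁻¹ • JJ K (-z) = (II K z)⁻¹ • JJ K z
      rw [e1, e2]
    · exact avg_mem hK (hh K z) (hh_continuous_right K z) (hh_nonneg K z) _
        (fun t ht => (hw t ht).1) hI
    · have := avg_mem hK (hh K z) (hh_continuous_right K z) (hh_nonneg K z) (-((1 / 2 : ℝ) • z))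
        (fun t ht => by rw [← sub_eq_add_neg]; exact (hw t ht).2) hI
      show (II K z)⁻¹ • JJ K z - (1 / 2 : ℝ) • z ∈ K
      rw [sub_eq_add_neg]
      exact this

end Pool.Agent.Helper82.MK
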